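import Mathlib

set_option autoImplicit false

/-! Uniqueness of power series (task PZ of project H740-QN). -/

namespace Pool.Agent.H614R3.QN

theorem pz : ∀ a : ℕ → ℂ, (∃ C : ℝ, ∀ n, ‖a n‖ * n.factorial ≤ C) → (∀ z : ℂ, ∑' n, a n * z ^ (n + 1) = 0) → ∀ n, a n = 0 := by
  rintro a ⟨C, hC⟩ hz
  have hC0 : 0 ≤ C := le_trans (by positivity) (hC 0)
  have ha : ∀ n, ‖a n‖ ≤ C := fun n => by
    have h1 : (1 : ℝ) ≤ (n.factorial : ℝ) := by exact_mod_cast Nat.factorial_pos n
    nlinarith [hC n, norm_nonneg (a n)]
  let b : ℕ → ℂ := fun n => Nat.casesOn n 0 a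
  have hb0 : b 0 = 0 := rfl
  have hb1 : ∀ n, b (n + 1) = a n := fun n => rfl
  have hb : ∀ n, ‖b n‖ ≤ C := by
    intro n
    cases n with
    | zero => rw [hb0, norm_zero]; exact hC0
    | succ n => rw [hb1]; exact ha n
  let p : FormalMultilinearSeries ℂ ℂ ℂ := FormalMultilinearSeries.ofScalars ℂ b
  have hp : HasFPowerSeriesOnBall (fun _ : ℂ => (0 : ℂ)) p 0 1 := by
    refine ⟨?_, one_pos, ?_⟩
    · have h1 := p.le_radius_of_bound (r := 1) C (fun n => by
        have h2 : ‖p n‖ ≤ ‖b n‖ := by
          refine ContinuousMultilinearMap.opNorm_le_bound (norm_nonneg _) fun m => ?_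
          simp only [p, FormalMultilinearSeries.ofScalars, smul_eq_mul,
            ContinuousMultilinearMap.smul_apply, ContinuousMultilinearMap.mkPiAlgebraFin_apply]
          rw [norm_mul]
          refine mul_le_mul_of_nonneg_left ?_ (norm_nonneg _)
          rw [List.prod_ofFn, norm_prod]
        simpa using h2.trans (hb n))
      exact_mod_cast h1
    · intro y hy
      have hy1 : ‖y‖ < 1 := by
        have h5 : edist y 0 < 1 := hy
        rw [edist_dist, dist_zero_right] at h5
        have h6 : ENNReal.ofReal ‖y‖ < ENNReal.ofReal 1 := by simpa using h5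
        exact (ENNReal.ofReal_lt_ofReal_iff one_pos).1 h6
      have hterm : ∀ n, (p n fun _ => y) = b n * y ^ n := by
        intro n
        simp [p, mul_comm]
      simp only [hterm]
      have hs : Summable fun n => b n * y ^ n := by
        refine Summable.of_norm_bounded (g := fun n => C * ‖y‖ ^ n)
          ((summable_geometric_of_lt_one (norm_nonneg _) hy1).mul_left C) fun n => ?_
        rw [norm_mul, norm_pow]
        exact mul_le_mul_of_nonneg_right (hb n) (by positivity)
      have h2 : ∑' n, b n * y ^ n = 0 := by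
        rw [hs.tsum_eq_zero_add, hb0, zero_mul, zero_add]
        exact hz y
      rw [← h2]
      exact hs.hasSum
  have hzero := hp.hasFPowerSeriesAt.eq_zero
  intro n
  have h3 := congrArg (fun q : FormalMultilinearSeries ℂ ℂ ℂ => q (n + 1) (fun _ => 1)) hzero
  simpa [p, FormalMultilinearSeries.ofScalars_apply_eq, hb1] using h3

end Pool.Agent.H614R3.QN
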